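import Pool.Agent.H35.VQ.Exact4
import Pool.Agent.H45.WB.Fin

/-!
# Every number from `0` to `2 q + 2` is the number of points of a curve of genus `g`

For every finite field with `q` elements this holds for `g ≥ q / log₂ q + 4`.
-/

namespace Pool.Agent.Results.MP_6a73ac_nt.AllCounts

open Pool.Agent.H35.VQ

theorem result (k : Type) [Field k] [Finite k] (g : ℕ)
    (hg : 2 ^ Nat.card k ≤ Nat.card k ^ (g - 4) ∨
      (if Even (Nat.card k) then 2 ^ Nat.card k ≤ Nat.card k ^ (g - 1)
        else Nat.card k + 2 * ringChar k ≤ 2 * g + 1)) (N : ℕ) (hN : N ≤ 2 * Nat.card k + 2) :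
    ∃ C : Hyp k g, C.numPoints = N := by
  classical
  have := Fintype.ofFinite k
  rw [Nat.card_eq_fintype_card] at hg hN
  by_cases h2 : (2 : k) = 0
  · have h3 : Even (Fintype.card k) := even_iff_two_dvd.2 (even_card h2)
    rw [if_pos h3] at hg
    refine exact_two h2 g ?_ N hN
    rcases hg with hg | hg
    · exact hg.trans (Nat.pow_le_pow_right Fintype.card_pos (by omega))
    · exact hg
  · have h3 : ¬ Even (Fintype.card k) := by
      intro h4
      have hr : ringChar k ≠ 2 := by
        intro h
        apply h2
        have := ringChar.Nat.cast_ringChar (R := k)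
        rw [h] at this
        exact_mod_cast this
      have h5 : Fintype.card k % 2 = 1 := FiniteField.odd_card_of_char_ne_two hr
      rw [Nat.even_iff] at h4
      omega
    rw [if_neg h3] at hg
    rcases hg with hg | hg
    · exact Pool.Agent.H45.WB.exact_odd_weil h2 g hg N hN
    · exact exact_odd h2 g hg N hN

end Pool.Agent.Results.MP_6a73ac_nt.AllCounts
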