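import Pool.Agent.H35.VQ.Approx

/-!
# Numbers of points on curves of genus `g` are dense around `q + 1`

For every finite field with `q` elements and every `g ≥ 1`, with `m = min g q`, the set of numbers
of rational points of curves of genus `g` is `120 √(q / m)`-dense in the interval of radius
`√(m q) / 3` around `q + 1`.
-/

namespace Pool.Agent.Results.MP_6a73ac_nt.DensePointCounts

open Pool.Agent.H35.VQ

theorem result (k : Type) [Field k] [Finite k] (g : ℕ) (hg : 1 ≤ g) (t : ℝ)
    (ht : |t| ≤ √((min g (Nat.card k) : ℕ) * (Nat.card k : ℝ)) / 3) :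
    ∃ C : Hyp k g, |(C.numPoints : ℝ) - (Nat.card k + 1) - t| ≤
      120 * √((Nat.card k : ℝ) / (min g (Nat.card k) : ℕ)) := by
  have := Fintype.ofFinite k
  rw [Nat.card_eq_fintype_card] at ht ⊢
  exact approx k g hg t ht

end Pool.Agent.Results.MP_6a73ac_nt.DensePointCounts
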