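import Pool.Agent.H45.VN.MainN

/-!
# All integers near `q + 1` are numbers of points of curves of genus `g`, `q` not prime

For a finite field with `q` elements, `q` not a prime, every integer `N` at distance at most
`√(min g q * q) / 4` from `q + 1` is the number of rational points of a hyperelliptic curve of genus `g`,
as soon as `g` is at least a constant times `√q log q` if `q` is a square, and a constant times
`q ^ (2 / 3) log q` if not.
-/

namespace Pool.Agent.Results.MP_6a73ac_nt.ExactCentral

open Pool.Agent.H35.VQ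

theorem result (k : Type) [Field k] [Finite k] (g : ℕ)
    (hg : (∃ s : ℕ, Nat.card k = s ^ 2 ∧ 300000 * s * (Nat.log 2 s + 1) ≤ g) ∨
      (¬ (Nat.card k).Prime ∧
        10 ^ 15 * Nat.card k ^ 2 * (Nat.log 2 (Nat.card k) + 1) ^ 3 ≤ g ^ 3))
    (N : ℕ) (hN : |(N : ℝ) - (Nat.card k + 1)| ≤
      √((min g (Nat.card k) : ℕ) * (Nat.card k : ℝ)) / 4) :
    ∃ C : Hyp k g, C.numPoints = N := by
  rcases hg with ⟨s, hs, hg⟩ | ⟨hp, hg⟩
  · refine Pool.Agent.H45.VS.main k s hs g hg N ?_
    have h1 : (Nat.card k : ℝ) = (s : ℝ) ^ 2 := by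
      rw [hs]
      push_cast
      ring
    rw [h1, hs] at hN
    linarith
  · refine Pool.Agent.H45.VN.mainN k hp g hg N ?_
    linarith

end Pool.Agent.Results.MP_6a73ac_nt.ExactCentral
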