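import Pool.Agent.H45.VM.Main

/-!
# Every number of points in genus `g` is one in genus `n (g + 1) - 1`

For every finite field, every `g ≥ 1` and every `n = 4 ^ a * m` with `m` odd (for `q` even also all multiples `n`
of `4`): the pullback of a hyperelliptic curve under an exceptional rational function of degree `n`.
-/

namespace Pool.Agent.Results.MP_6a73ac_nt.ExceptionalPullback

open Pool.Agent.H35.VQ

theorem result (k : Type) [Field k] [Finite k] (g : ℕ) (hg : 1 ≤ g) (n : ℕ) (hn0 : 0 < n)
    (hn : (∃ a m : ℕ, Odd m ∧ n = 4 ^ a * m) ∨ (Even (Nat.card k) ∧ 4 ∣ n)) (C : Hyp k g) :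
    ∃ C' : Hyp k (n * (g + 1) - 1), C'.numPoints = C.numPoints := by
  refine Pool.Agent.H45.VM.main k g hg C n hn0 hn _ ?_
  have h1 : 1 ≤ n * (g + 1) := Nat.mul_pos hn0 (Nat.succ_pos g)
  omega

end Pool.Agent.Results.MP_6a73ac_nt.ExceptionalPullback
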